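import Pool.Agent.R89.SR.Basis

/-!
Schneider's conjecture: the residue classes modulo `p ^ k` of the marked members with small `p`-adic
regulators (helper763, on the basis of the libraries `Y732` and `R89.SR`).
-/

set_option autoImplicit false

namespace Pool.Agent.N763.SC

open Pool.Agent.Y732 Pool.Agent.R89.SR Finset

variable {d r : ℕ}

/-- the residue classes of the marked members with a regulator of norm at most `p ^ (-k)` -/
def SmlCls (F : Family d r) (p : ℕ) [Fact p.Prime] (k : ℕ) : Set (Fin d → ZMod (p ^ k)) :=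
  (fun (v : Fin d → ℤ) (l : Fin d) => ((v l : ℤ) : ZMod (p ^ k))) '' {v | Sml F p (p ^ k) v}

theorem cls_card {p : ℕ} [hp : Fact p.Prime] (F : Family d r) (hr : 0 < r)
    (hK : F.K.det ≠ 0) (hp5 : 5 ≤ p) (k : ℕ) :
    (SmlCls F p k).ncard ^ r * p ^ k ≤
      (2 ^ d * r * F.K.det.natAbs * p ^ 4 * (p ^ k) ^ d) ^ r := by
  classical
  have hpk : 0 < p ^ k := pow_pos hp.out.pos k
  have : NeZero (p ^ k) := ⟨hpk.ne'⟩
  have hfin : (SmlCls F p k).Finite := Set.toFinite _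
  obtain ⟨A, hA⟩ : ∃ A : Finset (Fin d → ZMod (p ^ k)), A = hfin.toFinset := ⟨_, rfl⟩
  obtain ⟨Z, hZ⟩ : ∃ Z : Finset (Fin d → ℤ), Z = A.image fun z l => ((z l).val : ℤ) := ⟨_, rfl⟩
  have hinj : Function.Injective fun (z : Fin d → ZMod (p ^ k)) (l : Fin d) => ((z l).val : ℤ) := by
    intro z z' h
    funext l
    have h1 : ((z l).val : ℤ) = ((z' l).val : ℤ) := congrFun h l
    exact ZMod.val_injective _ (by exact_mod_cast h1)
  have hcard : (SmlCls F p k).ncard = Z.card := by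
    rw [hZ, Finset.card_image_of_injective _ hinj, hA, Set.ncard_eq_toFinset_card _ hfin]
  have hprod : ∏ _l : Fin d, p ^ k = (p ^ k) ^ d := by
    rw [Finset.prod_const, Finset.card_univ, Fintype.card_fin]
  rw [hcard, ← hprod]
  have hrep : ∀ v ∈ Z, ∃ u : Fin d → ℤ, Sml F p (p ^ k) u ∧ ∀ l, (p : ℤ) ^ k ∣ u l - v l := by
    intro v hv
    rw [hZ, Finset.mem_image] at hv
    obtain ⟨z, hz, rfl⟩ := hv
    rw [hA, Set.Finite.mem_toFinset] at hz
    obtain ⟨u, hu, rfl⟩ := hz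
    refine ⟨u, hu, fun l => ?_⟩
    have h1 : (((u l : ℤ) - (((((u l : ℤ) : ZMod (p ^ k))).val : ℕ) : ℤ) : ℤ) : ZMod (p ^ k)) = 0 := by
      push_cast
      rw [ZMod.natCast_zmod_val, sub_self]
    have h2 := (ZMod.intCast_zmod_eq_zero_iff_dvd _ (p ^ k)).1 h1
    exact_mod_cast h2
  refine countF_small hp.out hr (Int.natAbs_pos.2 hK) F.w (fun _ => 0) (fun _ => p ^ k) Z ?_
    (fun _ => le_rfl) ?_
  · intro v hv l
    rw [hZ, Finset.mem_image] at hv
    obtain ⟨z, hz, rfl⟩ := hv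
    refine ⟨by positivity, ?_⟩
    rw [zero_add]
    change ((z l).val : ℤ) < ((p ^ k : ℕ) : ℤ)
    exact_mod_cast ZMod.val_lt (z l)
  · intro k' a e hk' hkk he hak v μ hv hμ hc
    choose u hu hdiv using fun i => hrep (v i) (hv i)
    have hle : k' ≤ k := (Nat.pow_le_pow_iff_right hp.out.one_lt).1 hkk
    refine fam_orbit_small hp5 hk' hkk ?_ hak u μ hu hμ ?_
    · intro h
      apply he
      have h1 := Int.natAbs_dvd_natAbs.2 h
      rw [Int.natAbs_pow, Int.natAbs_natCast] at h1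
      exact h1
    · intro i l
      have h1 : ∀ i, (p : ℤ) ^ k' ∣ u i l - v i l := fun i => (pow_dvd_pow _ hle).trans (hdiv i l)
      have h2 : μ 0 ^ F.w l * u 0 l - μ i ^ F.w l * u i l =
          (μ 0 ^ F.w l * v 0 l - μ i ^ F.w l * v i l) + μ 0 ^ F.w l * (u 0 l - v 0 l) -
            μ i ^ F.w l * (u i l - v i l) := by ring
      rw [h2]
      exact dvd_sub (dvd_add (hc i l) ((h1 0).mul_left _)) ((h1 i).mul_left _)

/-- the constant of the starting theorem -/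
noncomputable def cst (F : Family d r) (p : ℕ) : ℝ := 2 ^ d * r * |(F.K.det : ℝ)| * (p : ℝ) ^ 4

theorem cls_real {p : ℕ} [hp : Fact p.Prime] (F : Family d r) (hr : 0 < r)
    (hK : F.K.det ≠ 0) (hp5 : 5 ≤ p) (k : ℕ) :
    ((SmlCls F p k).ncard : ℝ) ≤
      cst F p * (((p : ℝ) ^ k) ^ ((1 : ℝ) / r))⁻¹ * ((p ^ k : ℕ) : ℝ) ^ d := by
  have h1 := root_bound hr (cls_card F hr hK hp5 k)
  have hpk : (0 : ℝ) < (p : ℝ) ^ k := pow_pos (by exact_mod_cast hp.out.pos) k
  have h2 : (0 : ℝ) < ((p : ℝ) ^ k) ^ ((1 : ℝ) / r) := Real.rpow_pos_of_pos hpk _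
  have h3 : ((p ^ k : ℕ) : ℝ) = (p : ℝ) ^ k := by push_cast; rfl
  rw [h3] at h1 ⊢
  rw [← le_div_iff₀ h2] at h1
  refine h1.trans (le_of_eq ?_)
  unfold cst
  push_cast
  rw [Nat.cast_natAbs]
  push_cast
  field_simp

theorem sml_of_not_nonDeg {p : ℕ} [hp : Fact p.Prime] {F : Family d r} {v : Fin d → ℤ}
    (hr : 0 < r) (hM : F.Marked v) (ho : IsOrdinaryW p (F.curve v)) (hn : ¬ F.NonDeg v p) (T : ℕ) :
    Sml F p T v := by
  obtain ⟨h1, h2, h, hh, h0⟩ := F.van_of_not hr hM ho hn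
  refine ⟨h1, h2, h, hh, ?_⟩
  rw [h0, norm_zero, mul_zero]
  exact zero_le_one

end Pool.Agent.N763.SC
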