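import Pool.Agent.N763.SC.Cls
import Pool.Agent.N24.RW.All
import Pool.Agent.N24.KM.All

/-!
Schneider's conjecture along sequences of parameters which are equidistributed modulo the powers of a prime,
random orbits and metric sequences (helper763; engines of helper24).
-/

set_option autoImplicit false

namespace Pool.Agent.N763.SC

open Pool.Agent.Y732 Pool.Agent.R89.SR Filter Topology MeasureTheory
open Pool.Agent.N24.RW Pool.Agent.N24.KM

variable {d r : ℕ}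

/-- the number of the `n < N` with `c n` in `B` -/
noncomputable def cnt (c : ℕ → Fin d → ℤ) (B : Set (Fin d → ℤ)) (N : ℕ) : ℝ :=
  (({n : ℕ | n < N ∧ c n ∈ B}.ncard : ℕ) : ℝ)

/-- Along the sequence `c` of parameters vanishing `p`-adic regulators have density zero, and small
`p`-adic regulators are rare. -/
def Rare (c : ℕ → Fin d → ℤ) (F : Family d r) (p : ℕ) [Fact p.Prime] (κ : ℝ) : Prop :=
  Tendsto (fun N : ℕ => cnt c {v | F.Marked v ∧ IsOrdinaryW p (F.curve v) ∧ ¬ F.NonDeg v p} N /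
    (N : ℝ)) atTop (𝓝 0) ∧
  ∀ k : ℕ, ∀ δ : ℝ, 0 < δ → ∀ᶠ N : ℕ in atTop,
    cnt c {v | F.Marked v ∧ IsOrdinaryW p (F.curve v) ∧ ¬ Large F p (p ^ k) v} N / (N : ℝ) ≤
      κ * (2 ^ d * r * |(F.K.det : ℝ)| * (p : ℝ) ^ 4) / ((p : ℝ) ^ k) ^ ((1 : ℝ) / r) + δ

theorem cnt_mono (c : ℕ → Fin d → ℤ) {B B' : Set (Fin d → ℤ)} (h : B ⊆ B') (N : ℕ) :
    cnt c B N / (N : ℝ) ≤ cnt c B' N / (N : ℝ) := by
  refine div_le_div_of_nonneg_right ?_ (Nat.cast_nonneg N)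
  have h1 : {n : ℕ | n < N ∧ c n ∈ B} ⊆ {n : ℕ | n < N ∧ c n ∈ B'} := fun n hn => ⟨hn.1, h hn.2⟩
  have h2 := Set.ncard_le_ncard h1 ((Set.finite_Iio N).subset fun n hn => hn.1)
  unfold cnt
  exact_mod_cast h2

/-- the frequencies of the residue classes modulo `q` are at most `κ q ^ (-d)` -/
def Freq (c : ℕ → Fin d → ℤ) (q : ℕ) (κ : ℝ) : Prop :=
  ∀ (S : Set (Fin d → ZMod q)) (δ : ℝ), 0 < δ → ∀ᶠ N : ℕ in atTop,
    cnt c {v | (fun l => ((v l : ℤ) : ZMod q)) ∈ S} N / (N : ℝ) ≤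
      κ * ((S.ncard : ℝ) / (q : ℝ) ^ d) + δ

theorem rare_of_freq {c : ℕ → Fin d → ℤ} {κ : ℝ} (hκ : 0 ≤ κ) {p : ℕ} [hp : Fact p.Prime]
    (hfreq : ∀ k, Freq c (p ^ k) κ) (F : Family d r) (hr : 0 < r) (hK : F.K.det ≠ 0)
    (hp5 : 5 ≤ p) : Rare c F p κ := by
  have hpk : ∀ k, (0 : ℝ) < ((p ^ k : ℕ) : ℝ) ^ d := fun k => by
    have : (0 : ℝ) < ((p ^ k : ℕ) : ℝ) := by exact_mod_cast pow_pos hp.out.pos k
    exact pow_pos this d
  have hb : ∀ k : ℕ, ∀ δ : ℝ, 0 < δ → ∀ᶠ N : ℕ in atTop,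
      cnt c {v | Sml F p (p ^ k) v} N / (N : ℝ) ≤
        κ * (2 ^ d * r * |(F.K.det : ℝ)| * (p : ℝ) ^ 4) / ((p : ℝ) ^ k) ^ ((1 : ℝ) / r) + δ := by
    intro k δ hδ
    filter_upwards [hfreq k (SmlCls F p k) δ hδ] with N hN
    refine (cnt_mono c (fun v hv => ?_) N).trans (hN.trans (add_le_add ?_ le_rfl))
    · exact ⟨v, hv, rfl⟩
    · have h1 := cls_real F hr hK hp5 k
      rw [← div_le_iff₀ (hpk k)] at h1
      refine (mul_le_mul_of_nonneg_left h1 hκ).trans (le_of_eq ?_)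
      unfold cst
      rw [mul_div_assoc]
      exact congrArg _ (div_eq_mul_inv _ _).symm
  refine ⟨?_, fun k δ hδ => ?_⟩
  · rw [tendsto_order]
    constructor
    · intro u hu
      refine Eventually.of_forall fun N => lt_of_lt_of_le hu ?_
      unfold cnt
      positivity
    · intro u hu
      obtain ⟨A, hA⟩ : ∃ A : ℝ, A = κ * (2 ^ d * r * |(F.K.det : ℝ)| * (p : ℝ) ^ 4) := ⟨_, rfl⟩
      have hlim : Tendsto (fun k : ℕ => A / ((p : ℝ) ^ k) ^ ((1 : ℝ) / r)) atTop (𝓝 0) := by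
        refine tendsto_const_nhds.div_atTop ?_
        refine (tendsto_rpow_atTop (by positivity)).comp ?_
        exact tendsto_pow_atTop_atTop_of_one_lt (by exact_mod_cast hp.out.one_lt)
      obtain ⟨k, hk⟩ := ((tendsto_order.1 hlim).2 (u / 2) (by linarith)).exists
      filter_upwards [hb k (u / 2) (by linarith)] with N hN
      rw [← hA] at hN
      have h1 := cnt_mono c (B := {v | F.Marked v ∧ IsOrdinaryW p (F.curve v) ∧ ¬ F.NonDeg v p})
        (B' := {v | Sml F p (p ^ k) v})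
        (fun v hv => sml_of_not_nonDeg hr hv.1 hv.2.1 hv.2.2 _) N
      linarith
  · filter_upwards [hb k δ hδ] with N hN
    refine (cnt_mono c (fun v hv => ?_) N).trans hN
    exact sml_of_not hr hv.1 hv.2.1 hv.2.2

/-- random orbits -/
theorem orbit_freq (hd : 2 ≤ d) (W : Walk (Fin d)) (v : Fin d → ℤ) :
    ∀ᵐ w ∂(words W.m), ∀ (q : ℕ) (i : Fin d), 0 < q → q.Coprime (2 * W.q₀ * (v i).natAbs) →
      Freq (orb W v w) q 2 := by
  rw [ae_all_iff]
  intro q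
  rw [ae_all_iff]
  intro i
  by_cases hq : 0 < q
  swap
  · exact Eventually.of_forall fun w h => absurd h hq
  by_cases hc : q.Coprime (2 * W.q₀ * (v i).natAbs)
  swap
  · exact Eventually.of_forall fun w _ h => absurd h hc
  have : NeZero q := ⟨hq.ne'⟩
  have h1 : ∀ S : Set (Fin d → ZMod q), ∀ᵐ w ∂(words W.m), ∀ δ : ℝ, 0 < δ → ∀ᶠ N : ℕ in atTop,
      (({n : ℕ | n < N ∧ orb W v w n ∈ {u : Fin d → ℤ | (fun l => ((u l : ℤ) : ZMod q)) ∈ S}}.ncard :
        ℕ) : ℝ) / (N : ℝ) ≤ 2 * ((S.ncard : ℝ) / (q : ℝ) ^ d) + δ := by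
    intro S
    refine Mn.step t_ORB t_ERG (by rwa [Fintype.card_fin]) W v i _ q hq hc _ (by positivity) ?_
    have h2 : (((fun (c : Fin d → ℤ) (i : Fin d) => (c i : ZMod q)) ''
        {u : Fin d → ℤ | (fun l => ((u l : ℤ) : ZMod q)) ∈ S}).ncard) ≤ S.ncard := by
      refine Set.ncard_le_ncard ?_ (Set.toFinite _)
      rintro _ ⟨u, hu, rfl⟩
      exact hu
    have hqr : (0 : ℝ) < (q : ℝ) ^ d := by
      have : (0 : ℝ) < q := by exact_mod_cast hq
      positivity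
    rw [Fintype.card_fin, div_mul_cancel₀ _ hqr.ne']
    exact_mod_cast h2
  have hfin : Finite (Set (Fin d → ZMod q)) := inferInstance
  have h3 := ae_all_iff.2 h1
  filter_upwards [h3] with w hw _ _
  intro S δ hδ
  exact hw S δ hδ

/-- metric sequences -/
theorem metric_freq (a b : Fin d → ℝ) (f : Fin d → ℕ → ℝ → ℝ) (hab : ∀ i, a i < b i)
    (hf : ∀ i, Koksma (a i) (b i) (f i)) :
    ∀ᵐ α : Fin d → ℝ, (∀ i, α i ∈ Set.Icc (a i) (b i)) → ∀ q : ℕ, 0 < q →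
      Freq (fun n i => ⌊f i n (α i)⌋) q 1 := by
  have h0 : ∀ q : ℕ, ∀ᵐ α : Fin d → ℝ, (∀ i, α i ∈ Set.Icc (a i) (b i)) → 0 < q →
      Freq (fun n i => ⌊f i n (α i)⌋) q 1 := by
    intro q
    by_cases hq : 0 < q
    swap
    · exact Eventually.of_forall fun w _ h => absurd h hq
    have : NeZero q := ⟨hq.ne'⟩
    have h1 : ∀ S : Set (Fin d → ZMod q), ∀ᵐ α : Fin d → ℝ, (∀ i, α i ∈ Set.Icc (a i) (b i)) →
        ∀ δ : ℝ, 0 < δ → ∀ᶠ N : ℕ in atTop,
        (({n : ℕ | n < N ∧ (fun i => ⌊f i n (α i)⌋) ∈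
          {u : Fin d → ℤ | (fun l => ((u l : ℤ) : ZMod q)) ∈ S}}.ncard : ℕ) : ℝ) ≤
          ((S.ncard : ℝ) / (q : ℝ) ^ d + δ) * N := by
      intro S
      refine Kk.step wey t_TOR _ a b f hab hf q hq _ ?_
      have h2 : (((fun (c : Fin d → ℤ) (i : Fin d) => (c i : ZMod q)) ''
          {u : Fin d → ℤ | (fun l => ((u l : ℤ) : ZMod q)) ∈ S}).ncard) ≤ S.ncard := by
        refine Set.ncard_le_ncard ?_ (Set.toFinite _)
        rintro _ ⟨u, hu, rfl⟩
        exact hu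
      have hqr : (0 : ℝ) < (q : ℝ) ^ d := by
        have : (0 : ℝ) < q := by exact_mod_cast hq
        positivity
      rw [Fintype.card_fin, div_mul_cancel₀ _ hqr.ne']
      exact_mod_cast h2
    have hfin : Finite (Set (Fin d → ZMod q)) := inferInstance
    have h3 := ae_all_iff.2 h1
    filter_upwards [h3] with α hα hbox _
    intro S δ hδ
    filter_upwards [hα S hbox δ hδ, eventually_gt_atTop 0] with N hN hN0
    have hNr : (0 : ℝ) < N := by exact_mod_cast hN0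
    unfold cnt
    rw [div_le_iff₀ hNr, one_mul]
    exact hN
  have h4 := ae_all_iff.2 h0
  filter_upwards [h4] with α hα hbox q hq
  exact hα q hbox hq

/-- linear sequences -/
theorem linear_freq (a : Fin d → ℕ → ℝ) (δ : ℝ) (hδ : 0 < δ)
    (ha : ∀ i m n, m ≠ n → δ ≤ |a i m - a i n|) :
    ∀ᵐ α : Fin d → ℝ, ∀ q : ℕ, 0 < q → Freq (fun n i => ⌊a i n * α i⌋) q 1 := by
  have h1 : ∀ j : ℕ, ∀ᵐ α : Fin d → ℝ, (∀ i, α i ∈ Set.Icc (-(j : ℝ) - 1) ((j : ℝ) + 1)) →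
      ∀ q : ℕ, 0 < q → Freq (fun n i => ⌊a i n * α i⌋) q 1 := fun j =>
    metric_freq (fun _ => -(j : ℝ) - 1) (fun _ => (j : ℝ) + 1) (fun i n x => a i n * x)
      (fun _ => by linarith [Nat.cast_nonneg (α := ℝ) j]) fun i => Mt.koksma_lin (a i) δ hδ (ha i) _ _
  have h2 := ae_all_iff.2 h1
  filter_upwards [h2] with α hα q hq
  obtain ⟨j, hj⟩ := Mt.exists_bound α
  refine hα j (fun i => ?_) q hq
  have h3 := abs_le.1 (hj i)
  exact ⟨by linarith [h3.1], by linarith [h3.2]⟩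

end Pool.Agent.N763.SC
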